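import Pool.Agent.H564.MJ.Ratio
import Pool.Agent.H487.MI.Phase

/-!
# The deterministic theorem on the speed of the phase
-/

set_option autoImplicit false

open MeasureTheory Set Filter Topology Metric
open scoped ComplexConjugate

namespace Pool.Agent.H564.MJ

open Pool.Agent.H487.MI Pool.Agent.H487.NB Pool.Agent.H487.NZ H353.E H353.F

/-- the conclusion at height `y` -/
def Spd (F : ℂ → ℂ) (L lam δ y : ℝ) : Prop :=
  RR lam F (1 / 2 + y * Complex.I) 0 ≠ 0 ∧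
    |((Complex.I * (RD lam F (1 / 2 + y * Complex.I) 0 - F (1 / 2 + y * Complex.I))) /
        RR lam F (1 / 2 + y * Complex.I) 0).im - L / 2| ≤ δ * (L / 2)

/-- small times -/
theorem det2 (K : ℝ) {δ : ℝ} (hδ : 0 < δ) : ∃ ε x₀ : ℝ, 0 < ε ∧ 16 ≤ x₀ ∧ ∀ c₁ : ℝ, 0 < c₁ → c₁ ≤ 1 →
    ∃ c₃ b₁ L₀ : ℝ, 0 < c₃ ∧ 0 < b₁ ∧ 1 ≤ L₀ ∧
    ∀ (F f γ : ℂ → ℂ) (L t B κ y M ℓ lam : ℝ), Dt F f γ L t B → Base F 2 K M ℓ y → L₀ ≤ L → 200000 * B ≤ L → 0 ≤ B →
    8 * B ≤ δ * L → |2 * ℓ - L| ≤ B → 8 * x₀ ≤ κ → 200000 * B ≤ κ → 300000 ≤ κ → 10 ^ 4 / δ ^ 2 ≤ κ →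
    (∀ j : ℕ, (3 / 2 : ℝ) ^ j * κ ≤ c₁ * L → GS f t L ε (1 / 30000) ((3 / 2 : ℝ) ^ j * κ)) →
    (∀ s : ℂ, 1 / 2 + b₁ ≤ s.re → |s.im - t| ≤ 8 → f s ≠ 0) →
    |y - t| ≤ 1 / L → κ ≤ lam * L ^ 2 → lam * L ≤ c₃ → Spd F L lam δ y := by
  obtain ⟨ε₁, x₁, hε₁, hx₁, H⟩ := loc_of
  obtain ⟨ε₂, x₂, hε₂, hx₂, HF⟩ := ld_all (δ / 8) (by positivity)
  refine ⟨min ε₁ ε₂, max x₁ x₂, lt_min hε₁ hε₂, hx₁.trans (le_max_left _ _), fun c₁ hc₁ hc₁1 => ?_⟩
  set a₁ : ℝ := c₁ ^ 2 / (4 * 10 ^ 16) with ha₁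
  have ha0 : 0 < a₁ := by positivity
  have hc2 : c₁ ^ 2 ≤ c₁ := by nlinarith
  have ha1c : a₁ ≤ c₁ / (4 * 10 ^ 16) := by rw [ha₁]; gcongr
  have ha1 : a₁ ≤ 1 := by linarith
  obtain ⟨ℓ₂, hℓ₂, H2⟩ := x4 2 K 1 5 (a₁ / 16) 1 (by norm_num) (by positivity) (by linarith) one_pos zero_le_one (by norm_num)
  refine ⟨a₁, a₁ / 16, max (4 * ℓ₂) (max |K| 2), ha0, by positivity,
    (by norm_num : (1 : ℝ) ≤ 2).trans ((le_max_right _ _).trans (le_max_right _ _)),
    fun F f γ L t B κ y M ℓ lam D Bs hL hLB hB hBδ hℓL hκx hκB hκ3 hκδ G0 hz hy hlam hlam3 => ?_⟩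
  have hx₁' : x₁ ≤ max x₁ x₂ := le_max_left _ _
  have hx₂' : x₂ ≤ max x₁ x₂ := le_max_right _ _
  have hκ0 : 0 < κ := by linarith
  have hpow : ∀ j : ℕ, 0 ≤ (3 / 2 : ℝ) ^ j * κ := fun j => by positivity
  have G1 : ∀ j : ℕ, (3 / 2 : ℝ) ^ j * κ ≤ c₁ * L → GS f t L ε₁ (1 / 30000) ((3 / 2 : ℝ) ^ j * κ) := fun j hj =>
    gs_mono (G0 j hj) (min_le_left _ _) (hpow j)
  have G2 : ∀ j : ℕ, (3 / 2 : ℝ) ^ j * κ ≤ c₁ * L → GS f t L ε₂ (1 / 30000) ((3 / 2 : ℝ) ^ j * κ) := fun j hj =>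
    gs_mono (G0 j hj) (min_le_right _ _) (hpow j)
  have hL2 : 4 * ℓ₂ ≤ L := (le_max_left _ _).trans hL
  have hLK : |K| ≤ L := ((le_max_left _ _).trans (le_max_right _ _)).trans hL
  have hL3 : 2 ≤ L := ((le_max_right _ _).trans (le_max_right _ _)).trans hL
  have hL0 : 0 < L := by linarith
  have hK := Bs.hK
  have hM := Bs.hM
  obtain ⟨q1, q2⟩ := abs_le.mp hℓL
  have hℓ99 : 99 / 100 * L ≤ 2 * ℓ := by linarith
  have hℓL' : ℓ ≤ L := by linarith
  have hℓ0 : 0 < ℓ := by linarith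
  have hlamL0 : 0 < lam * L ^ 2 := by linarith
  have hlam0 : 0 < lam := by
    by_contra hcon
    push Not at hcon
    have := mul_nonpos_of_nonpos_of_nonneg hcon (by positivity : 0 ≤ L ^ 2)
    linarith
  have h1L : 1 / L ≤ 1 := by
    rw [div_le_one hL0]
    linarith
  have hKabs : |K| = K := abs_of_pos (by linarith)
  rw [hKabs] at hLK
  have h0 : Type0 F := Bs.slow.type0
  have hzF : ∀ z : ℂ, 1 / 2 + a₁ / 16 < z.re → |z.im - y| ≤ 7 → F z ≠ 0 := by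
    intro z h1 h2
    have h3 := abs_add_le (z.im - y) (y - t)
    rw [sub_add_sub_cancel] at h3
    exact D.ne (by linarith) (hz z h1.le (by linarith))
  have hup : ∀ u v : ℝ, 0 ≤ u → |v| ≤ 1 → ‖F (pt y u v)‖ ≤ M * Real.exp (L * (u + 2) + K * (2 + u ^ 2)) := by
    intro u v hu hv
    refine (Bs.up u v).trans (mul_le_mul_of_nonneg_left (Real.exp_le_exp.mpr ?_) hM.le)
    have h1 : max |u| 2 ≤ u + 2 := by
      rw [abs_of_nonneg hu]
      exact max_le (by linarith) (by linarith)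
    have h2 : ℓ * max |u| 2 ≤ L * (u + 2) := by gcongr
    have h3 : v ^ 2 ≤ 1 := by rw [← sq_abs]; exact pow_le_one₀ (abs_nonneg _) hv
    have h4 : K * (1 + u ^ 2 + v ^ 2) ≤ K * (2 + u ^ 2) := by
      apply mul_le_mul_of_nonneg_left _ (by linarith)
      linarith
    linarith
  have hlo : M * Real.exp (-L) ≤ ‖F (pt y (c₁ / 6144) 0)‖ := by
    have G2 := H2 F M ℓ y Bs (by linarith) (a₁ / 16) (by positivity) (by linarith) (fun z h1 h2 => hzF z h1 (by linarith))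
    have h1 := G2.lo (c₁ / 6144) 0 (by linarith) (by linarith) (by simp)
    refine le_trans (mul_le_mul_of_nonneg_left (Real.exp_le_exp.mpr ?_) hM.le) h1
    have : 0 ≤ ℓ * (c₁ / 6144 + 0 / 2) := by positivity
    linarith
  have hρκ : κ ≤ lam * L * L := by nlinarith
  have hρ0 : 0 < lam * L := by positivity
  have hloc : Loc F L y (lam * L) := H F f γ L t B κ c₁ y (lam * L) K M D hL0 hLB hc₁ hc₁1 (by linarith) hκB G1
      (fun s h3 h4 => hz s (by linarith) (by linarith)) Bs.diff hK hLK hM.le hup hlo hy hρκ hlam3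
  have hfe := Bs.fe
  have ht5 : 10 ^ 5 ≤ lam * L ^ 2 / 2 := by linarith
  have h1ρ : 1 / L ≤ lam * L := by
    rw [div_le_iff₀ hL0]
    linarith
  refine ratio_micro Bs.diff h0 hfe hL0 hδ ht5 (hκδ.trans hlam) hloc fun s s1 s2 s3 => ?_
  have hxs : κ / 2 ≤ (s.re - 1 / 2) * L := by
    have := mul_le_mul_of_nonneg_right s1 hL0.le
    linarith
  have h5 : |s.im - t| ≤ 33 * (s.re - 1 / 2) := by
    have := abs_add_le (s.im - y) (y - t)
    rw [sub_add_sub_cancel] at this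
    linarith
  obtain ⟨k1, k2⟩ := cone HF D hL0 hκ0 G2 (s := s) (by linarith) (by linarith) (by linarith) h5
  have hs0 : 0 < s.re := by linarith
  rw [D.lg hs0 k1]
  have e : (L : ℂ) / 2 + (logDeriv γ s + logDeriv f s) - ((L / 2 : ℝ) : ℂ) = logDeriv γ s + logDeriv f s := by
    push_cast
    ring
  rw [e]
  have k3 := D.γl s (by linarith) (by linarith) (by linarith)
  refine (norm_add_le _ _).trans ?_
  linarith

/-- the zeros of `H` at the heights in `[u, v]` are on the line and simple -/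
def Smp (H : ℂ → ℂ) (u v : ℝ) : Prop :=
  ∀ s : ℂ, u ≤ s.im → s.im ≤ v → H s = 0 → s.re = 1 / 2 ∧ deriv H s ≠ 0

/-- almost an arithmetic progression -/
def Eqs (η g : ℝ) (H : ℂ → ℂ) (u v : ℝ) : Prop :=
  (∀ s s' : ℂ, u ≤ s.im → s.im ≤ v → u ≤ s'.im → s'.im ≤ v → H s = 0 → H s' = 0 → s ≠ s' → (1 - η) * g ≤ |s.im - s'.im|) ∧
  (∀ a b : ℝ, u ≤ a → b ≤ v → (1 + η) * g ≤ b - a → ∃ s : ℂ, H s = 0 ∧ a ≤ s.im ∧ s.im ≤ b)

/-- from the speed to the spacing -/
theorem eqs_of {F : ℂ → ℂ} (hF : Differentiable ℂ F) (h0 : Type0 F) {ε : ℂ} (hε : ‖ε‖ = 1)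
    (hfe : ∀ s, F s = ε * conj (F (1 - conj s))) {L lam η u v : ℝ} (hL : 0 < L) (hlam : 0 < lam) (hη : 0 < η) (hη1 : η ≤ 1)
    (hS : ∀ y ∈ Icc u v, Spd F L lam (η / 2) y)
    (hline : ∀ s : ℂ, u ≤ s.im → s.im ≤ v → heat lam F s = 0 → s.re = 1 / 2) :
    Eqs η (2 * Real.pi / L) (heat lam F) u v := by
  have hpi := Real.pi_pos
  have hz : ∀ y : ℝ, heat lam F (1 / 2 + y * Complex.I) = 0 ↔
      RR lam F (1 / 2 + y * Complex.I) 0 + ε * conj (RR lam F (1 / 2 + y * Complex.I) 0) = 0 := by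
    intro y
    have h1 := heat_halves hF.continuous h0 hfe hlam y 0
    rw [Complex.ofReal_zero, add_zero, neg_zero] at h1
    rw [h1]
    have h2 : ((1 / Real.sqrt (4 * Real.pi * lam) : ℝ) : ℂ) ≠ 0 := by
      have h3 : (1 / Real.sqrt (4 * Real.pi * lam) : ℝ) ≠ 0 := by positivity
      exact_mod_cast h3
    rw [mul_eq_zero]
    exact ⟨fun h => h.resolve_left h2, fun h => Or.inr h⟩
  have hline' : ∀ s : ℂ, u ≤ s.im → s.im ≤ v → heat lam F s = 0 → s = 1 / 2 + (s.im : ℂ) * Complex.I := by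
    intro s h1 h2 h3
    apply Complex.ext
    · simp [hline s h1 h2 h3]
    · simp
  have g0 : 0 < 2 * Real.pi / L := by positivity
  constructor
  · intro s s' s1 s2 s3 s4 z1 z2 hne
    have e1 := hline' s s1 s2 z1
    have e2 := hline' s' s3 s4 z2
    -- ordered version
    have key : ∀ a b : ℝ, u ≤ a → a < b → b ≤ v → heat lam F (1 / 2 + a * Complex.I) = 0 →
        heat lam F (1 / 2 + b * Complex.I) = 0 → (1 - η) * (2 * Real.pi / L) ≤ b - a := by
      intro a b ha hab hb za zb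
      have h12 : u ≤ v := by linarith
      have P := (phase (μ := L / 2) (δ := η / 2) (ε := ε) h12 (fun y => rr_vert hF h0 hlam y) (rr_vert_cont hF h0 hlam)
        (fun y hy => (hS y hy).1) (by positivity) (by linarith) (fun y hy => (hS y hy).2) hε).1 a b ha hab hb
        ((hz a).mp za) ((hz b).mp zb)
      have h3 : (1 - η) * (1 + η / 2) ≤ 1 := by nlinarith
      have h4 : 0 < (1 + η / 2) * (L / 2) := by positivity
      rw [← sub_nonneg]
      by_contra hcon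
      push Not at hcon
      have h5 : b - a < (1 - η) * (2 * Real.pi / L) := by linarith
      have h6 := mul_lt_mul_of_pos_left h5 h4
      have h7 : (1 + η / 2) * (L / 2) * ((1 - η) * (2 * Real.pi / L)) = ((1 - η) * (1 + η / 2)) * Real.pi := by
        field_simp
      rw [h7] at h6
      have h8 : ((1 - η) * (1 + η / 2)) * Real.pi ≤ 1 * Real.pi := by gcongr
      linarith
    rcases lt_trichotomy s.im s'.im with h | h | h
    · rw [abs_sub_comm, abs_of_pos (by linarith)]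
      exact key _ _ s1 h s4 (by rw [← e1]; exact z1) (by rw [← e2]; exact z2)
    · exfalso
      apply hne
      rw [e1, e2, h]
    · rw [abs_of_pos (by linarith)]
      exact key _ _ s3 h s2 (by rw [← e2]; exact z2) (by rw [← e1]; exact z1)
  · intro a b ha hb hab
    have hab0 : a ≤ b := by
      have : 0 < (1 + η) * (2 * Real.pi / L) := by positivity
      linarith
    have h12 : u ≤ v := by linarith
    obtain ⟨y, hy, hzy⟩ := (phase (μ := L / 2) (δ := η / 2) (ε := ε) h12 (fun y => rr_vert hF h0 hlam y) (rr_vert_cont hF h0 hlam)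
      (fun y hy => (hS y hy).1) (by positivity) (by linarith) (fun y hy => (hS y hy).2) hε).2 a b ha hb hab0 (by
        have h3 : 1 ≤ (1 + η) * (1 - η / 2) := by nlinarith
        have h4 : 0 < (1 - η / 2) * (L / 2) := mul_pos (by linarith) (by positivity)
        have h6 := mul_le_mul_of_nonneg_left hab h4.le
        have h7 : (1 - η / 2) * (L / 2) * ((1 + η) * (2 * Real.pi / L)) = ((1 + η) * (1 - η / 2)) * Real.pi := by
          field_simp
        rw [h7] at h6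
        have h8 : 1 * Real.pi ≤ ((1 + η) * (1 - η / 2)) * Real.pi := by gcongr
        linarith)
    refine ⟨1 / 2 + y * Complex.I, (hz y).mpr hzy, ?_, ?_⟩
    · simpa using hy.1
    · simpa using hy.2

end Pool.Agent.H564.MJ
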