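import Pool.Agent.H564.MJ.Loc

/-!
# The deterministic theorem: regular scales and a zero free box put the zeros of the heat flow on the line
-/

set_option autoImplicit false

open MeasureTheory Set Filter Topology Metric
open scoped ComplexConjugate

namespace Pool.Agent.H564.MJ

open Pool.Agent.H487.MI Pool.Agent.H487.NB Pool.Agent.H487.NZ

/-- functional equation of the heat flow -/
lemma heat_fe {F : ℂ → ℂ} {ε : ℂ} (hfe : ∀ s, F s = ε * conj (F (1 - conj s))) (t : ℝ) (s : ℂ) :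
    heat t F s = ε * conj (heat t F (1 - conj s)) := by
  unfold heat
  rw [map_mul, Complex.conj_ofReal, ← integral_conj, mul_left_comm]
  congr 1
  rw [← integral_const_mul, ← integral_neg_eq_self (fun x : ℝ => F (s + x) * ((Real.exp (-(x ^ 2 / (4 * t))) : ℝ) : ℂ))]
  refine integral_congr_ae (Eventually.of_forall fun x => ?_)
  simp only [map_mul, Complex.conj_ofReal]
  rw [hfe, mul_assoc]
  congr 4
  · simp only [map_add, Complex.conj_ofReal]
    push_cast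
    ring
  · rw [neg_sq]

/-- the deterministic theorem -/
theorem det (K : ℝ) : ∃ ε x₀ : ℝ, 0 < ε ∧ 16 ≤ x₀ ∧ ∀ c₁ : ℝ, 0 < c₁ → c₁ ≤ 1 → ∃ c₃ b₁ L₀ : ℝ, 0 < c₃ ∧ 0 < b₁ ∧ 1 ≤ L₀ ∧
    ∀ (F f γ : ℂ → ℂ) (L t B κ y M ℓ lam : ℝ), Dt F f γ L t B → Base F 2 K M ℓ y → L₀ ≤ L → 200000 * B ≤ L → 0 ≤ B →
    |2 * ℓ - L| ≤ B → 8 * x₀ ≤ κ → 200000 * B ≤ κ → 300000 ≤ κ →
    (∀ j : ℕ, (3 / 2 : ℝ) ^ j * κ ≤ c₁ * L → GS f t L ε (1 / 30000) ((3 / 2 : ℝ) ^ j * κ)) →
    (∀ s : ℂ, 1 / 2 + b₁ ≤ s.re → |s.im - t| ≤ 8 → f s ≠ 0) →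
    |y - t| ≤ 1 / L → κ ≤ lam * L ^ 2 → lam * L ≤ c₃ → ∀ r : ℝ, |r| ≤ 2 →
    heat lam F (1 / 2 + y * Complex.I + r) = 0 → r = 0 ∧ deriv (heat lam F) (1 / 2 + y * Complex.I) ≠ 0 := by
  obtain ⟨ε, x₀, hε, hx₀, H⟩ := loc_of
  refine ⟨ε, x₀, hε, hx₀, fun c₁ hc₁ hc₁1 => ?_⟩
  set a₁ : ℝ := c₁ ^ 2 / (4 * 10 ^ 16) with ha₁
  have ha0 : 0 < a₁ := by positivity
  have hc2 : c₁ ^ 2 ≤ c₁ := by nlinarith
  have ha1c : a₁ ≤ c₁ / (4 * 10 ^ 16) := by rw [ha₁]; gcongr
  have ha1 : a₁ ≤ 1 := by linarith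
  obtain ⟨ℓ₁, hℓ₁, H1⟩ := macro_far K a₁ ha0 ha1
  obtain ⟨ℓ₂, hℓ₂, H2⟩ := x4 2 K 1 5 (a₁ / 16) 1 (by norm_num) (by positivity) (by linarith) one_pos zero_le_one (by norm_num)
  refine ⟨a₁ ^ 2 / 16, a₁ / 16, max (max (4 * ℓ₁) (4 * ℓ₂)) (max |K| 2), by positivity, by positivity,
    (by norm_num : (1 : ℝ) ≤ 2).trans ((le_max_right _ _).trans (le_max_right _ _)),
    fun F f γ L t B κ y M ℓ lam D Bs hL hLB hB hℓL hκx hκB hκ3 G hz hy hlam hlam3 r hr hr0 => ?_⟩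
  have hL1 : 4 * ℓ₁ ≤ L := ((le_max_left _ _).trans (le_max_left _ _)).trans hL
  have hL2 : 4 * ℓ₂ ≤ L := ((le_max_right _ _).trans (le_max_left _ _)).trans hL
  have hLK : |K| ≤ L := ((le_max_left _ _).trans (le_max_right _ _)).trans hL
  have hL3 : 2 ≤ L := ((le_max_right _ _).trans (le_max_right _ _)).trans hL
  have hL0 : 0 < L := by linarith
  have hK := Bs.hK
  have hM := Bs.hM
  obtain ⟨q1, q2⟩ := abs_le.mp hℓL
  have hℓ99 : 99 / 100 * L ≤ 2 * ℓ := by linarith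
  have hℓ101 : 2 * ℓ ≤ 101 / 100 * L := by linarith
  have hℓL' : ℓ ≤ L := by linarith
  have hℓ0 : 0 < ℓ := by linarith
  have hlamL0 : 0 < lam * L ^ 2 := by linarith
  have hlam0 : 0 < lam := by
    by_contra hcon
    push Not at hcon
    have := mul_nonpos_of_nonpos_of_nonneg hcon (by positivity : 0 ≤ L ^ 2)
    linarith
  have h1L : 1 / L ≤ 1 := by
    rw [div_le_one hL0]
    linarith
  have hKabs : |K| = K := abs_of_pos (by linarith)
  rw [hKabs] at hLK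
  have h0 : Type0 F := Bs.slow.type0
  -- zero free box of `F`
  have hzF : ∀ z : ℂ, 1 / 2 + a₁ / 16 < z.re → |z.im - y| ≤ 7 → F z ≠ 0 := by
    intro z h1 h2
    have h3 := abs_add_le (z.im - y) (y - t)
    rw [sub_add_sub_cancel] at h3
    exact D.ne (by linarith) (hz z h1.le (by linarith))
  have hup : ∀ u v : ℝ, 0 ≤ u → |v| ≤ 1 → ‖F (pt y u v)‖ ≤ M * Real.exp (L * (u + 2) + K * (2 + u ^ 2)) := by
    intro u v hu hv
    refine (Bs.up u v).trans (mul_le_mul_of_nonneg_left (Real.exp_le_exp.mpr ?_) hM.le)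
    have h1 : max |u| 2 ≤ u + 2 := by
      rw [abs_of_nonneg hu]
      exact max_le (by linarith) (by linarith)
    have h2 : ℓ * max |u| 2 ≤ L * (u + 2) := by gcongr
    have h3 : v ^ 2 ≤ 1 := by rw [← sq_abs]; exact pow_le_one₀ (abs_nonneg _) hv
    have h4 : K * (1 + u ^ 2 + v ^ 2) ≤ K * (2 + u ^ 2) := by
      apply mul_le_mul_of_nonneg_left _ (by linarith)
      linarith
    linarith
  have hlo : M * Real.exp (-L) ≤ ‖F (pt y (c₁ / 6144) 0)‖ := by
    have G2 := H2 F M ℓ y Bs (by linarith) (a₁ / 16) (by positivity) (by linarith) (fun z h1 h2 => hzF z h1 (by linarith))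
    have h1 := G2.lo (c₁ / 6144) 0 (by linarith) (by linarith) (by simp)
    refine le_trans (mul_le_mul_of_nonneg_left (Real.exp_le_exp.mpr ?_) hM.le) h1
    have : 0 ≤ ℓ * (c₁ / 6144 + 0 / 2) := by positivity
    linarith
  have hloc : ∀ ρ : ℝ, κ ≤ ρ * L → ρ ≤ a₁ → Loc F L y ρ := fun ρ h1 h2 =>
    H F f γ L t B κ c₁ y ρ K M D hL0 hLB hc₁ hc₁1 hκx hκB G
      (fun s h3 h4 => hz s (by linarith) (by linarith)) Bs.diff hK hLK hM.le hup hlo hy h1 h2
  have hfe := Bs.fe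
  have ht5 : 10 ^ 5 ≤ lam * L ^ 2 / 2 := by linarith
  have ha12 : a₁ ^ 2 ≤ a₁ := by nlinarith
  -- positive `r` away from the line
  have hpos : ∀ r : ℝ, lam * L < r → r ≤ 2 → heat lam F (1 / 2 + y * Complex.I + r) ≠ 0 := by
    intro r h1 h2
    rcases le_total r a₁ with h3 | h3
    · have hr0 : 0 < r := lt_trans (by positivity) h1
      refine micro_far Bs.diff h0 hfe hr0 (hloc r ?_ h3) hL0 ht5 h1.le
      have := mul_le_mul_of_nonneg_right h1.le hL0.le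
      nlinarith
    · have hll : 0 < lam * L := by positivity
      have h4 := H1 F M ℓ y Bs (by linarith) (fun z h5 h6 => hzF z (by linarith) h6) (2 * ℓ * lam) (by
          have h5 : (99 / 100 * L) ^ 2 ≤ (2 * ℓ) ^ 2 := pow_le_pow_left₀ (by positivity) hℓ99 2
          have h6 : (99 / 100 * L) ^ 2 * lam ≤ (2 * ℓ) ^ 2 * lam := by gcongr
          have h7 : 2 * ℓ * lam * ℓ = (2 * ℓ) ^ 2 * lam / 2 := by ring
          rw [h7]
          have h8 : (99 / 100 * L) ^ 2 * lam = 9801 / 10000 * (lam * L ^ 2) := by ring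
          linarith) (by
          have h5 : 2 * ℓ * lam ≤ 101 / 100 * L * lam := by gcongr
          linarith) r h3 h2
      have e : 2 * ℓ * lam / (2 * ℓ) = lam := by field_simp
      rwa [e] at h4
  rcases le_total |r| (lam * L) with h1 | h1
  · exact micro_near Bs.diff h0 hfe hL0 ht5 (hloc _ (by nlinarith) (by linarith)) h1 hr0
  · rcases h1.eq_or_lt with h1 | h1
    · exact micro_near Bs.diff h0 hfe hL0 ht5 (hloc _ (by nlinarith) (by linarith)) h1.ge hr0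
    · exfalso
      rcases le_total 0 r with h2 | h2
      · rw [abs_of_nonneg h2] at h1 hr
        exact hpos r h1 hr hr0
      · rw [abs_of_nonpos h2] at h1 hr
        refine hpos (-r) h1 hr ?_
        obtain ⟨ε', hε', hfe'⟩ := hfe
        rw [heat_fe hfe' lam]
        have e : 1 - conj (1 / 2 + (y : ℂ) * Complex.I + ((-r : ℝ) : ℂ)) = 1 / 2 + (y : ℂ) * Complex.I + (r : ℂ) := by
          simp only [map_add, map_mul, Complex.conj_ofReal, Complex.conj_I, map_div₀, map_one, map_ofNat]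
          push_cast
          ring
        rw [e, hr0, map_zero, mul_zero]

end Pool.Agent.H564.MJ
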