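import Pool.Agent.H487.MI.Micro
import Pool.Agent.H487.MI.Macro
import Pool.Agent.H354.MI.LD
import Pool.Agent.H354.MI.UG

/-!
# From the regular scales to the local hypotheses (copy of H487.MI.Loc with lighter imports)
-/

set_option autoImplicit false

open MeasureTheory Set Filter Topology Metric
open scoped ComplexConjugate

namespace Pool.Agent.H564.MJ

open Pool.Agent.H487.MI Pool.Agent.H487.NB Pool.Agent.H487.NZ

theorem ld_all : S_LD := Pool.Agent.H354.MI.ld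

theorem ug_all : S_UG := Pool.Agent.H354.MI.ug Pool.Agent.H354.MI.ld

lemma gs_mono {f : ℂ → ℂ} {t L ε ε' c₀ R : ℝ} (h : GS f t L ε c₀ R) (hε : ε ≤ ε') (hR : 0 ≤ R) : GS f t L ε' c₀ R := by
  refine ⟨h.1, fun z h1 h2 => (h.2 z h1 h2).trans ?_⟩
  gcongr

/-- `F = e^{L s / 2} γ f` near height `t` -/
structure Dt (F f γ : ℂ → ℂ) (L t B : ℝ) : Prop where
  fd : Differentiable ℂ f
  eq : ∀ s : ℂ, 0 < s.re → F s = Complex.exp (L / 2 * s) * (γ s * f s)
  γd : ∀ s : ℂ, 0 < s.re → DifferentiableAt ℂ γ s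
  γ0 : ∀ s : ℂ, 0 < s.re → γ s ≠ 0
  γb : ∀ s w : ℂ, 1 / 2 ≤ s.re → s.re ≤ 2 → |s.im - t| ≤ 2 → 1 / 2 ≤ w.re → w.re ≤ 2 → |w.im - t| ≤ 2 →
    ‖γ s‖ ≤ Real.exp B * ‖γ w‖
  γl : ∀ s : ℂ, 1 / 2 ≤ s.re → s.re ≤ 2 → |s.im - t| ≤ 2 → ‖logDeriv γ s‖ ≤ B

lemma Dt.ne {F f γ : ℂ → ℂ} {L t B : ℝ} (D : Dt F f γ L t B) {s : ℂ} (hs : 0 < s.re) (h : f s ≠ 0) : F s ≠ 0 := by
  rw [D.eq s hs]
  exact mul_ne_zero (Complex.exp_ne_zero _) (mul_ne_zero (D.γ0 s hs) h)

lemma Dt.lg {F f γ : ℂ → ℂ} {L t B : ℝ} (D : Dt F f γ L t B) {s : ℂ} (hs : 0 < s.re) (h : f s ≠ 0) :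
    logDeriv F s = L / 2 + (logDeriv γ s + logDeriv f s) := by
  have h1 : F =ᶠ[𝓝 s] fun s => Complex.exp (L / 2 * s) * (γ s * f s) := by
    have h2 : ∀ᶠ z : ℂ in 𝓝 s, 0 < z.re := (isOpen_lt continuous_const Complex.continuous_re).mem_nhds hs
    filter_upwards [h2] with z hz
    exact D.eq z hz
  have h2 : logDeriv F s = logDeriv (fun s => Complex.exp (L / 2 * s) * (γ s * f s)) s := by
    rw [logDeriv_apply, logDeriv_apply, h1.deriv_eq, h1.eq_of_nhds]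
  have h5 := logDeriv_mul (f := fun z : ℂ => Complex.exp (L / 2 * z)) (g := fun z => γ z * f z) s (Complex.exp_ne_zero _)
    (mul_ne_zero (D.γ0 s hs) h) (by fun_prop) ((D.γd s hs).mul (D.fd s))
  have h6 := logDeriv_mul (f := γ) (g := f) s (D.γ0 s hs) h (D.γd s hs) (D.fd s)
  have h3 : HasDerivAt (fun z : ℂ => Complex.exp (L / 2 * z)) (Complex.exp (L / 2 * s) * (L / 2 * 1)) s :=
    ((hasDerivAt_id s).const_mul (L / 2 : ℂ)).cexp
  have h4 : logDeriv (fun z : ℂ => Complex.exp (L / 2 * z)) s = L / 2 := by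
    rw [logDeriv_apply, h3.deriv, mul_one, mul_div_cancel_left₀ _ (Complex.exp_ne_zero _)]
  rw [h2, h5, h6, h4]

/-- the logarithmic derivative in the cone -/
lemma cone {ε' ε x₀ : ℝ} (H : ∀ f : ℂ → ℂ, Differentiable ℂ f → ∀ t L R x : ℝ, 0 < L → x₀ ≤ x → 4096 * x ≤ R → R ≤ 6144 * x →
      GS f t L ε (1 / 30000) R → ∀ s : ℂ, s.re = 1 / 2 + x / L → |s.im - t| ≤ 33 * x / L →
        f s ≠ 0 ∧ ‖logDeriv f s‖ ≤ ε' * L)
    {F f γ : ℂ → ℂ} {L t B κ c₁ : ℝ} (D : Dt F f γ L t B) (hL : 0 < L) (hκ : 0 < κ)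
    (G : ∀ j : ℕ, (3 / 2 : ℝ) ^ j * κ ≤ c₁ * L → GS f t L ε (1 / 30000) ((3 / 2 : ℝ) ^ j * κ))
    {s : ℂ} (h1 : x₀ ≤ (s.re - 1 / 2) * L) (h2 : κ ≤ 4096 * ((s.re - 1 / 2) * L)) (h3 : 6144 * (s.re - 1 / 2) ≤ c₁)
    (h4 : |s.im - t| ≤ 33 * (s.re - 1 / 2)) : f s ≠ 0 ∧ ‖logDeriv f s‖ ≤ ε' * L := by
  obtain ⟨j, j1, j2⟩ := Pool.Agent.H354.MI.scale hκ h2
  refine H f D.fd t L _ ((s.re - 1 / 2) * L) hL h1 j1 (by linarith) (G j ?_) s ?_ ?_
  · have := mul_le_mul_of_nonneg_right h3 hL.le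
    linarith
  · field_simp
    ring
  · rw [mul_div_assoc, mul_div_cancel_right₀ _ hL.ne']
    exact h4

/-- the cone for `F` -/
lemma coneF {ε x₀ : ℝ} (H : ∀ f : ℂ → ℂ, Differentiable ℂ f → ∀ t L R x : ℝ, 0 < L → x₀ ≤ x → 4096 * x ≤ R → R ≤ 6144 * x →
      GS f t L ε (1 / 30000) R → ∀ s : ℂ, s.re = 1 / 2 + x / L → |s.im - t| ≤ 33 * x / L →
        f s ≠ 0 ∧ ‖logDeriv f s‖ ≤ (1 / 200000) * L)
    {F f γ : ℂ → ℂ} {L t B κ c₁ : ℝ} (D : Dt F f γ L t B) (hL : 0 < L) (hLB : 200000 * B ≤ L) (hκ : 0 < κ) (hc₁ : c₁ ≤ 1)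
    (G : ∀ j : ℕ, (3 / 2 : ℝ) ^ j * κ ≤ c₁ * L → GS f t L ε (1 / 30000) ((3 / 2 : ℝ) ^ j * κ))
    {s : ℂ} (hs : 0 ≤ s.re - 1 / 2) (h1 : x₀ ≤ (s.re - 1 / 2) * L) (h2 : κ ≤ 4096 * ((s.re - 1 / 2) * L))
    (h3 : 6144 * (s.re - 1 / 2) ≤ c₁)
    (h4 : |s.im - t| ≤ 33 * (s.re - 1 / 2)) : F s ≠ 0 ∧ ‖logDeriv F s - (L / 2 : ℝ)‖ ≤ 1 / 50000 * (L / 2) := by
  obtain ⟨k1, k2⟩ := cone H D hL hκ G h1 h2 h3 h4
  have hs0 : 0 < s.re := by linarith
  refine ⟨D.ne hs0 k1, ?_⟩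
  rw [D.lg hs0 k1]
  have e : (L : ℂ) / 2 + (logDeriv γ s + logDeriv f s) - ((L / 2 : ℝ) : ℂ) = logDeriv γ s + logDeriv f s := by
    push_cast
    ring
  rw [e]
  have k3 := D.γl s (by linarith) (by linarith) (by linarith)
  refine (norm_add_le _ _).trans ?_
  linarith

/-- the local hypotheses -/
theorem loc_of : ∃ ε x₀ : ℝ, 0 < ε ∧ 16 ≤ x₀ ∧ ∀ (F f γ : ℂ → ℂ) (L t B κ c₁ y ρ K M : ℝ), Dt F f γ L t B → 0 < L →
    200000 * B ≤ L → 0 < c₁ → c₁ ≤ 1 → 8 * x₀ ≤ κ → 200000 * B ≤ κ →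
    (∀ j : ℕ, (3 / 2 : ℝ) ^ j * κ ≤ c₁ * L → GS f t L ε (1 / 30000) ((3 / 2 : ℝ) ^ j * κ)) →
    (∀ s : ℂ, 1 / 2 + c₁ / 6144 ≤ s.re → |s.im - t| ≤ 2 → f s ≠ 0) →
    Differentiable ℂ F → 1 ≤ K → K ≤ L → 0 ≤ M →
    (∀ u v : ℝ, 0 ≤ u → |v| ≤ 1 → ‖F (pt y u v)‖ ≤ M * Real.exp (L * (u + 2) + K * (2 + u ^ 2))) →
    (M * Real.exp (-L) ≤ ‖F (pt y (c₁ / 6144) 0)‖) →
    |y - t| ≤ 1 / L → κ ≤ ρ * L → ρ ≤ c₁ ^ 2 / (4 * 10 ^ 16) → Loc F L y ρ := by
  obtain ⟨ε₁, x₁, hε₁, hx₁, HL⟩ := ld_all (1 / 200000) (by norm_num)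
  obtain ⟨ε₂, x₂, hε₂, hx₂, HU⟩ := ug_all (1 / 800000) (by norm_num)
  refine ⟨min ε₁ ε₂, max x₁ x₂, lt_min hε₁ hε₂, hx₁.trans (le_max_left _ _), ?_⟩
  intro F f γ L t B κ c₁ y ρ K M D hL hLB hc₁ hc₁1 hκ hκB G0 hz hF hK hKL hM hup hlo hy hρκ hρ1
  have hx₁' : x₁ ≤ max x₁ x₂ := le_max_left _ _
  have hx₂' : x₂ ≤ max x₁ x₂ := le_max_right _ _
  have hκ0 : 0 < κ := by linarith
  have hpow : ∀ j : ℕ, 0 ≤ (3 / 2 : ℝ) ^ j * κ := fun j => by positivity
  have G1 : ∀ j : ℕ, (3 / 2 : ℝ) ^ j * κ ≤ c₁ * L → GS f t L ε₁ (1 / 30000) ((3 / 2 : ℝ) ^ j * κ) := fun j hj =>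
    gs_mono (G0 j hj) (min_le_left _ _) (hpow j)
  have G2 : ∀ j : ℕ, (3 / 2 : ℝ) ^ j * κ ≤ c₁ * L → GS f t L ε₂ (1 / 30000) ((3 / 2 : ℝ) ^ j * κ) := fun j hj =>
    gs_mono (G0 j hj) (min_le_right _ _) (hpow j)
  have hρ0 : 0 < ρ := by
    by_contra hcon
    push Not at hcon
    have := mul_nonpos_of_nonpos_of_nonneg hcon hL.le
    linarith
  have hρL : 1 ≤ ρ * L := by linarith
  have h1L : 1 / L ≤ ρ := by
    rw [div_le_iff₀ hL]
    exact hρL
  have hc2 : c₁ ^ 2 ≤ c₁ := by nlinarith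
  have hρc : ρ ≤ c₁ / (4 * 10 ^ 16) := hρ1.trans (by gcongr)
  have hyt : ∀ s : ℂ, |s.im - t| ≤ |s.im - y| + ρ := by
    intro s
    have := abs_add_le (s.im - y) (y - t)
    rw [sub_add_sub_cancel] at this
    linarith
  have hxx : ∀ s : ℂ, ρ / 8 ≤ s.re - 1 / 2 → κ / 8 ≤ (s.re - 1 / 2) * L := by
    intro s hs
    have := mul_le_mul_of_nonneg_right hs hL.le
    linarith
  have CF : ∀ s : ℂ, ρ / 8 ≤ s.re - 1 / 2 → 6144 * (s.re - 1 / 2) ≤ c₁ → |s.im - y| ≤ 2 * ρ →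
      F s ≠ 0 ∧ ‖logDeriv F s - (L / 2 : ℝ)‖ ≤ 1 / 50000 * (L / 2) := by
    intro s h1 h2 h3
    have h5 := hyt s
    have h6 := hxx s h1
    exact coneF HL D hL hLB hκ0 hc₁1 G1 (by linarith) (by linarith) (by linarith) h2 (by linarith)
  refine ⟨fun s h1 h2 => ?_, fun s h1 h2 h3 => ?_, fun u v hu hv => ?_⟩
  · rcases le_total (6144 * (s.re - 1 / 2)) c₁ with h3 | h3
    · exact (CF s h1 h3 h2).1
    · have h5 := hyt s
      exact D.ne (by linarith) (hz s (by linarith) (by linarith))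
  · exact (CF s h1 (by linarith) h3).2
  · rcases le_total u (c₁ / (2 * 10 ^ 5)) with hu2 | hu2
    · -- small `u`
      set z : ℂ := (u * L : ℝ) + ((y - t + v) * L : ℝ) * Complex.I with hzd
      have hznorm : ‖z‖ ≤ (u + 2 * ρ) * L := by
        refine (norm_add_le _ _).trans ?_
        rw [norm_mul, Complex.norm_I, mul_one, Complex.norm_real, Complex.norm_real, Real.norm_of_nonneg (by positivity),
          Real.norm_eq_abs, abs_mul, abs_of_pos hL]
        have := abs_add_le (y - t) v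
        have h7 : |y - t + v| ≤ 2 * ρ := by linarith
        have h8 := mul_le_mul_of_nonneg_right h7 hL.le
        linarith
      have hzre : z.re = u * L := by
        rw [hzd]
        simp
      have hLc : (L : ℂ) ≠ 0 := by exact_mod_cast hL.ne'
      have ez : 1 / 2 + (t : ℂ) * Complex.I + z / (L : ℝ) = pt y u v := by
        rw [hzd]
        unfold pt
        push_cast
        field_simp
        ring
      have ew : 1 / 2 + (t : ℂ) * Complex.I + (4 * ((ρ * L : ℝ) : ℂ) + (((y - t) * L : ℝ) : ℂ) * Complex.I) / (L : ℝ) =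
          pt y (4 * ρ) 0 := by
        unfold pt
        push_cast
        field_simp
        ring
      have hwl : |(y - t) * L| ≤ 1 := by
        rw [abs_mul, abs_of_pos hL]
        have := mul_le_mul_of_nonneg_right hy hL.le
        rwa [one_div, inv_mul_cancel₀ hL.ne'] at this
      obtain ⟨k1, k2⟩ := HU f D.fd t L κ c₁ hL hc₁ (by linarith) G2 (ρ * L) hρκ (by
          have := mul_le_mul_of_nonneg_right hρc hL.le
          linarith) z (by rw [hzre]; positivity) (by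
          have h7 := mul_le_mul_of_nonneg_right hρc hL.le
          have h8 := mul_le_mul_of_nonneg_right hu2 hL.le
          linarith) ((y - t) * L) hwl
      rw [ez, ew] at k2
      have p1 : 0 < (pt y u v).re := by rw [pt_re]; linarith
      have p2 : 0 < (pt y (4 * ρ) 0).re := by rw [pt_re]; linarith
      rw [D.eq _ p1, D.eq _ p2, norm_mul, norm_mul, norm_mul, norm_mul, Complex.norm_exp, Complex.norm_exp]
      have e1 : ((L : ℂ) / 2 * pt y u v).re = L / 2 * (1 / 2 + u) := by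
        rw [show ((L : ℂ) / 2) = ((L / 2 : ℝ) : ℂ) by push_cast; ring, Complex.re_ofReal_mul, pt_re]
      have e2 : ((L : ℂ) / 2 * pt y (4 * ρ) 0).re = L / 2 * (1 / 2 + 4 * ρ) := by
        rw [show ((L : ℂ) / 2) = ((L / 2 : ℝ) : ℂ) by push_cast; ring, Complex.re_ofReal_mul, pt_re]
      rw [e1, e2]
      have g1 := D.γb (pt y u v) (pt y (4 * ρ) 0) (by rw [pt_re]; linarith) (by rw [pt_re]; linarith)
        (by
          rw [pt_im]
          have := abs_add_le (y - t) v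
          rw [show y + v - t = y - t + v by ring]
          linarith) (by rw [pt_re]; linarith) (by rw [pt_re]; linarith) (by rw [pt_im, add_zero]; linarith)
      calc Real.exp (L / 2 * (1 / 2 + u)) * (‖γ (pt y u v)‖ * ‖f (pt y u v)‖) ≤
          Real.exp (L / 2 * (1 / 2 + u)) * ((Real.exp B * ‖γ (pt y (4 * ρ) 0)‖) *
            (Real.exp (1 / 800000 * (ρ * L + ‖z‖)) * ‖f (pt y (4 * ρ) 0)‖)) := by gcongr
        _ = (Real.exp (L / 2 * (1 / 2 + u)) * Real.exp B * Real.exp (1 / 800000 * (ρ * L + ‖z‖))) *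
            (‖γ (pt y (4 * ρ) 0)‖ * ‖f (pt y (4 * ρ) 0)‖) := by ring
        _ ≤ (Real.exp (L / 2 * (1 / 2 + 4 * ρ)) * Real.exp (L / 2 * (u - 4 * ρ) + 1 / 10 ^ 5 * L * (ρ + u ^ 2 / ρ))) *
            (‖γ (pt y (4 * ρ) 0)‖ * ‖f (pt y (4 * ρ) 0)‖) := by
            refine mul_le_mul_of_nonneg_right ?_ (by positivity)
            rw [← Real.exp_add, ← Real.exp_add, ← Real.exp_add]
            refine Real.exp_le_exp.mpr ?_
            have h7 : 2 * u ≤ ρ + u ^ 2 / ρ := by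
              have : u ^ 2 / ρ * ρ = u ^ 2 := by field_simp
              have h8 : 0 ≤ (u - ρ) ^ 2 / ρ := by positivity
              have h9 : (u - ρ) ^ 2 / ρ = u ^ 2 / ρ - 2 * u + ρ := by field_simp; ring
              linarith
            have h8 := mul_le_mul_of_nonneg_right h7 hL.le
            have h9 : 0 ≤ u ^ 2 / ρ * L := by positivity
            have e3 : 1 / 10 ^ 5 * L * (ρ + u ^ 2 / ρ) = 1 / 10 ^ 5 * (ρ * L) + 1 / 10 ^ 5 * (u ^ 2 / ρ * L) := by ring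
            rw [e3]
            linarith
        _ = _ := by ring
    · -- large `u`
      have hu0 : 0 < u := lt_of_lt_of_le (by positivity) hu2
      have hseg := twist_seg hF (a := pt y (4 * ρ) 0) (b := pt y (c₁ / 6144) 0) (ℓ := L / 2) (B := 1 / 50000 * (L / 2))
        (fun s hs0 hs1 => by
          have hp : pt y (4 * ρ) 0 + (s : ℂ) * (pt y (c₁ / 6144) 0 - pt y (4 * ρ) 0) =
              pt y (4 * ρ + s * (c₁ / 6144 - 4 * ρ)) 0 := by
            unfold pt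
            push_cast
            ring
          rw [hp]
          have hd : 0 ≤ c₁ / 6144 - 4 * ρ := by linarith
          have h7 : s * (c₁ / 6144 - 4 * ρ) ≤ 1 * (c₁ / 6144 - 4 * ρ) := by gcongr
          have h8 : 0 ≤ s * (c₁ / 6144 - 4 * ρ) := by positivity
          exact CF _ (by rw [pt_re]; linarith) (by rw [pt_re]; linarith) (by
            rw [pt_im]
            simp
            linarith))
      have e1 : pt y (c₁ / 6144) 0 - pt y (4 * ρ) 0 = ((c₁ / 6144 - 4 * ρ : ℝ) : ℂ) := by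
        unfold pt
        push_cast
        ring
      rw [e1, Complex.norm_real, Real.norm_of_nonneg (by linarith : 0 ≤ c₁ / 6144 - 4 * ρ), pt_re, pt_re] at hseg
      have h7 : ‖F (pt y (c₁ / 6144) 0)‖ ≤ Real.exp L * ‖F (pt y (4 * ρ) 0)‖ := by
        refine hseg.trans (mul_le_mul_of_nonneg_right (Real.exp_le_exp.mpr ?_) (norm_nonneg _))
        have h8 : c₁ / 6144 - 4 * ρ ≤ 1 := by linarith
        have h9 : 1 / 50000 * (L / 2) * (c₁ / 6144 - 4 * ρ) ≤ 1 / 50000 * (L / 2) * 1 := by gcongr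
        have h10 : L / 2 * (1 / 2 + c₁ / 6144 - (1 / 2 + 4 * ρ)) ≤ L / 2 * 1 := by
          gcongr
          linarith
        linarith
      have h8 : M ≤ Real.exp (2 * L) * ‖F (pt y (4 * ρ) 0)‖ := by
        have h9 := mul_le_mul_of_nonneg_left (hlo.trans h7) (Real.exp_pos L).le
        rw [mul_left_comm, ← Real.exp_add, add_neg_cancel, Real.exp_zero, mul_one, ← mul_assoc, ← Real.exp_add] at h9
        refine h9.trans (le_of_eq ?_)
        congr 2
        ring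
      have h9 := hup u v hu0.le (by linarith)
      calc ‖F (pt y u v)‖ ≤ M * Real.exp (L * (u + 2) + K * (2 + u ^ 2)) := h9
        _ ≤ (Real.exp (2 * L) * ‖F (pt y (4 * ρ) 0)‖) * Real.exp (L * (u + 2) + K * (2 + u ^ 2)) := by gcongr
        _ = ‖F (pt y (4 * ρ) 0)‖ * Real.exp (2 * L + (L * (u + 2) + K * (2 + u ^ 2))) := by
            rw [Real.exp_add (2 * L)]
            ring
        _ ≤ _ := by
            refine mul_le_mul_of_nonneg_left (Real.exp_le_exp.mpr ?_) (norm_nonneg _)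
            have h10 : K * (2 + u ^ 2) ≤ L * (2 + u ^ 2) := by gcongr
            set a₄ : ℝ := c₁ / (2 * 10 ^ 5) with ha₄
            have ha0 : 0 < a₄ := by positivity
            have ha1 : a₄ ≤ 1 := by rw [ha₄, div_le_one (by norm_num)]; linarith
            have hρa : ρ ≤ a₄ ^ 2 / 10 ^ 6 := by
              refine hρ1.trans (le_of_eq ?_)
              rw [ha₄]
              ring
            have k1 : 10 ^ 6 / a₄ ^ 2 ≤ 1 / ρ := by
              rw [div_le_div_iff₀ (by positivity) hρ0]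
              rw [le_div_iff₀ (by norm_num)] at hρa
              linarith
            have k2 : u ^ 2 * (10 ^ 6 / a₄ ^ 2) ≤ u ^ 2 / ρ := by
              have := mul_le_mul_of_nonneg_left k1 (sq_nonneg u)
              rwa [mul_one_div] at this
            have k3 : 1 ≤ u ^ 2 / a₄ ^ 2 := by
              rw [one_le_div (by positivity)]
              exact pow_le_pow_left₀ ha0.le hu2 2
            have k4 : u ≤ u ^ 2 / a₄ ^ 2 := by
              rw [le_div_iff₀ (by positivity)]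
              have k5 : a₄ ^ 2 ≤ a₄ := by nlinarith
              nlinarith
            have k5 : u ^ 2 ≤ u ^ 2 / a₄ ^ 2 := by
              rw [le_div_iff₀ (by positivity)]
              have : a₄ ^ 2 ≤ 1 := pow_le_one₀ ha0.le ha1
              nlinarith [sq_nonneg u]
            have k6 : u ^ 2 * (10 ^ 6 / a₄ ^ 2) = 10 ^ 6 * (u ^ 2 / a₄ ^ 2) := by ring
            rw [k6] at k2
            have k7 : 2 + (u + 2) + (2 + u ^ 2) + 2 * ρ ≤ 1 / 10 ^ 5 * (u ^ 2 / ρ) := by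
              linarith
            have k8 := mul_le_mul_of_nonneg_left k7 hL.le
            have k9 : 0 ≤ 1 / 10 ^ 5 * L * ρ := by positivity
            have k10 : 0 ≤ L / 2 * u := by positivity
            linarith

end Pool.Agent.H564.MJ
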