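import Pool.Agent.H564.MJ.Det
import Pool.Agent.H487.MI.Vert
import Pool.Agent.H487.NZ.XFinal

/-!
# The speed of the phase of the right average
-/

set_option autoImplicit false

open MeasureTheory Set Filter Topology Metric
open scoped ComplexConjugate

namespace Pool.Agent.H564.MJ

open Pool.Agent.H487.MI Pool.Agent.H487.NB Pool.Agent.H487.NZ

lemma ratio_alg {Q D F0 G : ℂ} {κ w μ e : ℝ} (hw : 0 < w) (hκ : 0 < κ) (h1 : 1 / 2 * κ * w ≤ ‖Q‖) (h2 : ‖D - G * Q‖ ≤ 40 * w)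
    (h3 : ‖F0‖ ≤ w) (h4 : ‖G - μ‖ ≤ e) : Q ≠ 0 ∧ |((Complex.I * (D - F0)) / Q).im - μ| ≤ e + 82 / κ := by
  have hQ0 : 0 < ‖Q‖ := lt_of_lt_of_le (by positivity) h1
  have hQ : Q ≠ 0 := norm_pos_iff.mp hQ0
  refine ⟨hQ, ?_⟩
  have e1 : ((Complex.I * (D - F0)) / Q).im - μ = ((D - G * Q - F0) / Q + (G - μ)).re := by
    have : (Complex.I * (D - F0)) / Q = Complex.I * ((D - F0) / Q) := by ring
    rw [this, Complex.I_mul_im]
    have e2 : (D - G * Q - F0) / Q + (G - μ) = (D - F0) / Q - μ := by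
      field_simp
      ring
    rw [e2, Complex.sub_re, Complex.ofReal_re]
  rw [e1]
  refine (Complex.abs_re_le_norm _).trans ((norm_add_le _ _).trans ?_)
  have h5 : ‖(D - G * Q - F0) / Q‖ ≤ 82 / κ := by
    rw [norm_div, div_le_div_iff₀ hQ0 hκ]
    have h6 : ‖D - G * Q - F0‖ ≤ 41 * w := (norm_sub_le _ _).trans (by linarith)
    calc ‖D - G * Q - F0‖ * κ ≤ 41 * w * κ := by gcongr
      _ = 82 * (1 / 2 * κ * w) := by ring
      _ ≤ 82 * ‖Q‖ := by gcongr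
  linarith

lemma gk_self (t : ℝ) (s : ℂ) : gk t s s = 1 := by
  unfold gk
  simp

variable {X : ℂ → ℂ} {a K M ℓ y τ β ε R η T₀ r₁ : ℝ} {φ : ℝ → ℝ}

lemma line_pt (y : ℝ) : 1 / 2 + (y : ℂ) * Complex.I = pt y 0 0 := by
  unfold pt
  simp

/-- the ratio for `XV` -/
theorem ratio_xv (C : XV X a K M ℓ y τ β ε R η T₀ r₁ φ) (hr₁ : r₁ ≤ 0) :
    ∃ w : ℂ, |w.re - (1 / 2 + τ)| ≤ ε * τ ∧ |w.im - y| ≤ ε * τ ∧ ∀ μ e : ℝ, ‖logDeriv X w - μ‖ ≤ e →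
      RR (τ / (2 * ℓ)) X (1 / 2 + y * Complex.I) 0 ≠ 0 ∧
      |((Complex.I * (RD (τ / (2 * ℓ)) X (1 / 2 + y * Complex.I) 0 - X (1 / 2 + y * Complex.I))) /
        RR (τ / (2 * ℓ)) X (1 / 2 + y * Complex.I) 0).im - μ| ≤ e + 82 / Real.sqrt (4 * Real.pi * (τ / (2 * ℓ))) := by
  have ha := C.ha
  have hℓ := C.hℓ
  have hτ := C.hτ0
  obtain ⟨w, S⟩ := C.exists_sp hr₁ ha.le
  obtain ⟨p1, p2⟩ := S.pos
  rw [add_zero] at p1
  refine ⟨w, p1, p2, fun μ e h => ?_⟩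
  obtain ⟨l1, l2⟩ := rr_low C S hr₁ ha.le
  obtain ⟨e1, e2⟩ := est C S hr₁ ha.le
  have hF0 : ‖X (1 / 2 + y * Complex.I)‖ ≤ ‖X w * gk (τ / (2 * ℓ)) (pt y 0 0) w‖ := by
    have h3 := strip_small C S hr₁ ha.le (u := 0) (v := 0) le_rfl C.hβ.le (by
      have := C.hε
      rw [abs_zero]
      positivity)
    rw [gk_self, mul_one, ← line_pt] at h3
    refine h3.trans ?_
    rw [← line_pt]
    refine mul_le_of_le_one_right (norm_nonneg _) (Real.exp_le_one_iff.mpr ?_)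
    have := C.hη
    have : 0 ≤ η * ℓ / 4 := by positivity
    linarith
  exact ratio_alg l1 (Real.sqrt_pos.mpr (by positivity)) l2 e2 hF0 h

/-- the ratio for `XC` -/
theorem ratio_xc (C : XC X a K M ℓ y τ β ε R η T₀) :
    ∃ w : ℂ, |w.re - (1 / 2 + τ)| ≤ ε * τ ∧ |w.im - y| ≤ ε * τ ∧ ∀ μ e : ℝ, ‖logDeriv X w - μ‖ ≤ e →
      RR (τ / (2 * ℓ)) X (1 / 2 + y * Complex.I) 0 ≠ 0 ∧
      |((Complex.I * (RD (τ / (2 * ℓ)) X (1 / 2 + y * Complex.I) 0 - X (1 / 2 + y * Complex.I))) /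
        RR (τ / (2 * ℓ)) X (1 / 2 + y * Complex.I) 0).im - μ| ≤ e + 82 / Real.sqrt (4 * Real.pi * (τ / (2 * ℓ))) := by
  have ha := C.B.ha
  have hℓ := C.hℓ
  have hη := C.hη
  have hτ : 0 < τ := by linarith [C.hητ]
  have hr₁ : -(η / 16) ≤ 0 := by linarith
  obtain ⟨w, S⟩ := C.exists_sp hr₁ ha.le
  obtain ⟨p1, p2⟩ := S.pos
  rw [add_zero] at p1
  refine ⟨w, p1, p2, fun μ e h => ?_⟩
  obtain ⟨l1, l2⟩ := Pool.Agent.H487.NZ.rr_low C S hr₁ ha.le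
  obtain ⟨e1, e2⟩ := Pool.Agent.H487.NZ.est C S hr₁ ha.le
  have hF0 : ‖X (1 / 2 + y * Complex.I)‖ ≤ ‖X w * gk (τ / (2 * ℓ)) (pt y 0 0) w‖ := by
    have h3 := Pool.Agent.H487.NZ.strip_small C S hr₁ ha.le (u := 0) (v := 0) le_rfl C.hβ.le (by
      have := C.hε
      rw [abs_zero]
      positivity)
    rw [gk_self, mul_one, ← line_pt] at h3
    refine h3.trans ?_
    rw [← line_pt]
    refine mul_le_of_le_one_right (norm_nonneg _) (Real.exp_le_one_iff.mpr ?_)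
    have : 0 ≤ η * ℓ / 4 := by positivity
    linarith
  exact ratio_alg l1 (Real.sqrt_pos.mpr (by positivity)) l2 e2 hF0 h

lemma rr_resc (F : ℂ → ℂ) {y ρ t : ℝ} (hρ : 0 < ρ) (ht : 0 < t) :
    RR t (resc F y ρ) (1 / 2 + ((0 : ℝ) : ℂ) * Complex.I) 0 = (1 / ρ : ℝ) * RR (ρ ^ 2 * t) F (1 / 2 + y * Complex.I) 0 := by
  unfold RR resc
  have h := integral_comp_mul_left_Ioi (fun u : ℝ => F (1 / 2 + y * Complex.I + u) *
    ((Real.exp (-((u - 0) ^ 2 / (4 * (ρ ^ 2 * t)))) : ℝ) : ℂ)) 0 hρ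
  rw [mul_zero] at h
  rw [← one_div, Complex.real_smul] at h
  rw [← h]
  refine setIntegral_congr_fun measurableSet_Ioi fun x _ => ?_
  congr 2
  · push_cast
    ring
  · congr 2
    field_simp
    ring

lemma rd_resc (F : ℂ → ℂ) {y ρ t : ℝ} (hρ : 0 < ρ) (ht : 0 < t) :
    RD t (resc F y ρ) (1 / 2 + ((0 : ℝ) : ℂ) * Complex.I) 0 = RD (ρ ^ 2 * t) F (1 / 2 + y * Complex.I) 0 := by
  unfold RD resc
  have h := integral_comp_mul_left_Ioi (fun u : ℝ => F (1 / 2 + y * Complex.I + u) *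
    ((((u - 0) / (2 * (ρ ^ 2 * t))) * Real.exp (-((u - 0) ^ 2 / (4 * (ρ ^ 2 * t)))) : ℝ) : ℂ)) 0 hρ
  rw [mul_zero, ← one_div, Complex.real_smul] at h
  have h2 := congrArg (fun z : ℂ => (ρ : ℂ) * z) h
  have hρc : (ρ : ℂ) ≠ 0 := by exact_mod_cast hρ.ne'
  have e1 : (ρ : ℂ) * (((1 / ρ : ℝ) : ℂ) * ∫ x in Ioi (0 : ℝ), F (1 / 2 + y * Complex.I + x) *
      ((((x - 0) / (2 * (ρ ^ 2 * t))) * Real.exp (-((x - 0) ^ 2 / (4 * (ρ ^ 2 * t)))) : ℝ) : ℂ)) =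
      ∫ x in Ioi (0 : ℝ), F (1 / 2 + y * Complex.I + x) *
      ((((x - 0) / (2 * (ρ ^ 2 * t))) * Real.exp (-((x - 0) ^ 2 / (4 * (ρ ^ 2 * t)))) : ℝ) : ℂ) := by
    rw [← mul_assoc]
    push_cast
    field_simp
  rw [e1] at h2
  rw [← h2, ← integral_const_mul]
  refine setIntegral_congr_fun measurableSet_Ioi fun x _ => ?_
  rw [mul_left_comm]
  congr 1
  · congr 1
    push_cast
    ring
  · rw [← Complex.ofReal_mul]
    congr 1
    have e2 : (x - 0) ^ 2 / (4 * t) = (ρ * x - 0) ^ 2 / (4 * (ρ ^ 2 * t)) := by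
      field_simp
      ring
    rw [e2]
    field_simp
    ring

/-- small scale -/
theorem ratio_micro {F : ℂ → ℂ} {L y lam δ : ℝ} (hF : Differentiable ℂ F) (h0 : Type0 F)
    (hfe : ∃ ε : ℂ, ‖ε‖ = 1 ∧ ∀ s, F s = ε * conj (F (1 - conj s))) (hL : 0 < L) (hδ : 0 < δ)
    (ht : 10 ^ 5 ≤ lam * L ^ 2 / 2) (ht2 : 10 ^ 4 / δ ^ 2 ≤ lam * L ^ 2) (Lo : Loc F L y (lam * L))
    (hfine : ∀ s : ℂ, 1 / 2 * (lam * L) ≤ s.re - 1 / 2 → s.re - 1 / 2 ≤ 2 * (lam * L) → |s.im - y| ≤ lam * L →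
      ‖logDeriv F s - (L / 2 : ℝ)‖ ≤ δ / 2 * (L / 2)) :
    RR lam F (1 / 2 + y * Complex.I) 0 ≠ 0 ∧
    |((Complex.I * (RD lam F (1 / 2 + y * Complex.I) 0 - F (1 / 2 + y * Complex.I))) /
        RR lam F (1 / 2 + y * Complex.I) 0).im - L / 2| ≤ δ * (L / 2) := by
  have hlam : 0 < lam := by
    by_contra hcon
    push Not at hcon
    have : lam * L ^ 2 ≤ 0 := mul_nonpos_of_nonpos_of_nonneg hcon (by positivity)
    linarith
  set ρ : ℝ := lam * L with hρd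
  have hρ : 0 < ρ := by positivity
  set ℓ : ℝ := ρ * L / 2 with hℓd
  have hℓ0 : 0 < ℓ := by positivity
  have hℓe : ℓ = lam * L ^ 2 / 2 := by rw [hℓd, hρd]; ring
  have C := xv_micro (τ := 1) (r₁ := -(1 / 128)) hF h0 hfe hρ Lo (by norm_num) le_rfl (by rw [one_mul, ← hℓd, hℓe]; exact ht)
    (by norm_num) (by norm_num)
  obtain ⟨w, w1, w2, H⟩ := ratio_xv C (by norm_num)
  have e1 : (1 : ℝ) / (2 * ℓ) = lam / ρ ^ 2 := by rw [hℓd, hρd]; field_simp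
  have e2 : ρ ^ 2 * (lam / ρ ^ 2) = lam := by field_simp
  have hst : 0 < lam / ρ ^ 2 := by positivity
  have hκ : 164 / (δ * ℓ) ≤ Real.sqrt (4 * Real.pi * (1 / (2 * ℓ))) := by
    rw [Real.le_sqrt' (by positivity)]
    have hpi := Real.pi_gt_three
    have e3 : 4 * Real.pi * (1 / (2 * ℓ)) = 2 * Real.pi / ℓ := by field_simp; ring
    rw [e3, div_pow, div_le_div_iff₀ (by positivity) hℓ0]
    have h5 : 10 ^ 4 ≤ lam * L ^ 2 * δ ^ 2 := by rwa [div_le_iff₀ (by positivity)] at ht2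
    have h6 : 5000 ≤ ℓ * δ ^ 2 := by rw [hℓe]; linarith
    have h7 : (164 : ℝ) ^ 2 ≤ 2 * Real.pi * (ℓ * δ ^ 2) := by
      have : 2 * 3 * 5000 ≤ 2 * Real.pi * (ℓ * δ ^ 2) := by gcongr
      linarith
    calc (164 : ℝ) ^ 2 * ℓ ≤ (2 * Real.pi * (ℓ * δ ^ 2)) * ℓ := by gcongr
      _ = 2 * Real.pi * (δ * ℓ) ^ 2 := by ring
  obtain ⟨k1, k2⟩ := H ℓ (ρ * (δ / 2 * (L / 2))) (by
    rw [resc_logDeriv hF]
    have e3 : (ρ : ℂ) * logDeriv F (1 / 2 + (y : ℂ) * Complex.I + (ρ : ℂ) * (w - 1 / 2)) - (ℓ : ℂ) =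
        ρ * (logDeriv F (1 / 2 + (y : ℂ) * Complex.I + (ρ : ℂ) * (w - 1 / 2)) - (L / 2 : ℝ)) := by
      rw [hℓd]
      push_cast
      ring
    rw [e3, norm_mul, Complex.norm_real, Real.norm_of_nonneg hρ.le]
    refine mul_le_mul_of_nonneg_left (hfine _ ?_ ?_ ?_) hρ.le
    · have e4 : (1 / 2 + (y : ℂ) * Complex.I + (ρ : ℂ) * (w - 1 / 2)).re - 1 / 2 = ρ * (w.re - 1 / 2) := by
        simp
      rw [e4]
      nlinarith [(abs_le.mp w1).1]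
    · have e4 : (1 / 2 + (y : ℂ) * Complex.I + (ρ : ℂ) * (w - 1 / 2)).re - 1 / 2 = ρ * (w.re - 1 / 2) := by
        simp
      rw [e4]
      nlinarith [(abs_le.mp w1).2]
    · have e4 : (1 / 2 + (y : ℂ) * Complex.I + (ρ : ℂ) * (w - 1 / 2)).im - y = ρ * (w.im - 0) := by
        simp
      rw [e4, abs_mul, abs_of_pos hρ]
      nlinarith)
  have eF : resc F y ρ (1 / 2 + ((0 : ℝ) : ℂ) * Complex.I) = F (1 / 2 + y * Complex.I) := by
    unfold resc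
    congr 1
    push_cast
    ring
  rw [e1] at k1 k2 hκ
  rw [rr_resc F hρ hst, e2] at k1 k2
  rw [rd_resc F hρ hst, e2, eF] at k2
  have hQ : RR lam F (1 / 2 + y * Complex.I) 0 ≠ 0 := fun h => k1 (by rw [h, mul_zero])
  refine ⟨hQ, ?_⟩
  have e5 : (Complex.I * (RD lam F (1 / 2 + y * Complex.I) 0 - F (1 / 2 + y * Complex.I))) /
      (((1 / ρ : ℝ) : ℂ) * RR lam F (1 / 2 + y * Complex.I) 0) =
      (ρ : ℂ) * ((Complex.I * (RD lam F (1 / 2 + y * Complex.I) 0 - F (1 / 2 + y * Complex.I))) /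
        RR lam F (1 / 2 + y * Complex.I) 0) := by
    have hρc : (ρ : ℂ) ≠ 0 := by exact_mod_cast hρ.ne'
    push_cast
    field_simp
  rw [e5, Complex.im_ofReal_mul] at k2
  set Z : ℝ := ((Complex.I * (RD lam F (1 / 2 + y * Complex.I) 0 - F (1 / 2 + y * Complex.I))) /
        RR lam F (1 / 2 + y * Complex.I) 0).im with hZ
  have e6 : ρ * Z - ℓ = ρ * (Z - L / 2) := by rw [hℓd]; ring
  rw [e6, abs_mul, abs_of_pos hρ] at k2
  have h8 : 82 / Real.sqrt (4 * Real.pi * (lam / ρ ^ 2)) ≤ ρ * (δ / 2 * (L / 2)) := by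
    have h9 : 0 < 164 / (δ * ℓ) := by positivity
    calc 82 / Real.sqrt (4 * Real.pi * (lam / ρ ^ 2)) ≤ 82 / (164 / (δ * ℓ)) := by gcongr
      _ = ρ * (δ / 2 * (L / 2)) := by
          rw [hℓd]
          field_simp
          ring
  have h9 : ρ * |Z - L / 2| ≤ ρ * (δ * (L / 2)) := by linarith
  exact le_of_mul_le_mul_left h9 hρ

/-- large scale -/
theorem ratio_macro {F : ℂ → ℂ} {K M ℓ y τ β ε R η T₀ L lam δ B : ℝ} (C : XC F 2 K M ℓ y τ β ε R η T₀)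
    (hτ : τ = 2 * ℓ * lam) (hL : 0 < L) (hδ : 0 < δ) (hη : η ≤ δ) (hB : |2 * ℓ - L| ≤ B) (hBL : 4 * B ≤ δ * L) (hBL1 : B ≤ L)
    (ht2 : 40000 / δ ^ 2 ≤ lam * L ^ 2) :
    RR lam F (1 / 2 + y * Complex.I) 0 ≠ 0 ∧
    |((Complex.I * (RD lam F (1 / 2 + y * Complex.I) 0 - F (1 / 2 + y * Complex.I))) /
        RR lam F (1 / 2 + y * Complex.I) 0).im - L / 2| ≤ δ * (L / 2) := by
  obtain ⟨b1, b2⟩ := abs_le.mp hB
  have hℓ := C.hℓ
  have hε := C.hε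
  have hη0 := C.hη
  have hητ := C.hητ
  have hτT := C.hτT
  have hεη := C.hεη
  obtain ⟨s1, s2⟩ := C.small
  have hlam : 0 < lam := by
    by_contra hcon
    push Not at hcon
    have : lam * L ^ 2 ≤ 0 := mul_nonpos_of_nonpos_of_nonneg hcon (by positivity)
    have h3 : 0 < 40000 / δ ^ 2 := by positivity
    linarith
  obtain ⟨w, w1, w2, H⟩ := ratio_xc C
  obtain ⟨w3, w4⟩ := abs_le.mp w1
  have e1 : τ / (2 * ℓ) = lam := by rw [hτ]; field_simp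
  rw [e1] at H
  have hεε : ε * 192 ≤ δ := by
    have h3 : ε * 3 ≤ ε * (3 + 4 * T₀) := by
      apply mul_le_mul_of_nonneg_left _ hε.le
      linarith
    linarith
  have hlg := C.G.lg w (by linarith [C.hβτ]) (by linarith [C.hR]) (by linarith)
  obtain ⟨k1, k2⟩ := H (L / 2) (ε * ℓ + B / 2) (by
    have e2 : logDeriv F w - ((L / 2 : ℝ) : ℂ) = (logDeriv F w - ℓ) + ((ℓ - L / 2 : ℝ) : ℂ) := by push_cast; ring
    rw [e2]
    refine (norm_add_le _ _).trans (add_le_add hlg ?_)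
    rw [Complex.norm_real, Real.norm_eq_abs, abs_le]
    constructor <;> linarith)
  refine ⟨k1, k2.trans ?_⟩
  have hκ : 656 / (δ * L) ≤ Real.sqrt (4 * Real.pi * lam) := by
    rw [Real.le_sqrt' (by positivity)]
    have hpi := Real.pi_gt_three
    rw [div_pow, div_le_iff₀ (by positivity)]
    have h5 : 40000 ≤ lam * L ^ 2 * δ ^ 2 := by rwa [div_le_iff₀ (by positivity)] at ht2
    have h7 : (656 : ℝ) ^ 2 ≤ 4 * Real.pi * (lam * L ^ 2 * δ ^ 2) := by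
      have : 4 * 3 * 40000 ≤ 4 * Real.pi * (lam * L ^ 2 * δ ^ 2) := by gcongr
      linarith
    linarith
  have h8 : 82 / Real.sqrt (4 * Real.pi * lam) ≤ δ / 4 * (L / 2) := by
    calc 82 / Real.sqrt (4 * Real.pi * lam) ≤ 82 / (656 / (δ * L)) := by gcongr
      _ = δ / 4 * (L / 2) := by
          field_simp
          ring
  have h9 : ε * ℓ ≤ δ / 4 * (L / 2) := by
    have h10 : ℓ ≤ L := by linarith
    have h11 : ε * ℓ ≤ ε * L := by gcongr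
    have h12 : ε * 192 * L ≤ δ * L := by gcongr
    linarith
  have h13 : 0 < δ * L := by positivity
  linarith

end Pool.Agent.H564.MJ
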